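import Mathlib

set_option autoImplicit false

namespace Pool.Agent.Results.MP_356e41_ag.QuasiPoly

open MvPolynomial Finset

/-- `V_n(I)` for `I = (N_6 - 2 N_4 + N_2, N_1)`. -/
def V (n : ℕ) : Set (Fin n → ℝ) :=
  {x | eval x (psum (Fin n) ℝ 6 - 2 * psum (Fin n) ℝ 4 + psum (Fin n) ℝ 2) = 0 ∧
    eval x (psum (Fin n) ℝ 1) = 0}

/-- Singular cohomology in degree zero: functions constant along paths. -/
def H0 (S : Type) [TopologicalSpace S] : Submodule ℚ (S → ℚ) where
  carrier := {f | ∀ x y, Joined x y → f x = f y}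
  add_mem' := fun hf hg x y h => by simp only [Pi.add_apply, hf x y h, hg x y h]
  zero_mem' := fun _ _ _ => rfl
  smul_mem' := fun c _ hf x y h => by simp only [Pi.smul_apply, hf x y h]

/-- Functions on `V n` fixed by all permutations of the coordinates. -/
def Fixed (n : ℕ) : Submodule ℚ (V n → ℚ) where
  carrier := {f | ∀ (x y : V n) (σ : Equiv.Perm (Fin n)), y.1 = x.1 ∘ σ → f x = f y}
  add_mem' := fun hf hg x y σ h => by simp only [Pi.add_apply, hf x y σ h, hg x y σ h]
  zero_mem' := fun _ _ _ _ => rfl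
  smul_mem' := fun c _ hf x y σ h => by simp only [Pi.smul_apply, hf x y σ h]

/-- Multiplicity of the trivial representation in `H^0(V n)`. -/
noncomputable def mult (n : ℕ) : ℕ := Module.finrank ℚ ↥(H0 (V n) ⊓ Fixed n)

lemma mem_V {n : ℕ} {x : Fin n → ℝ} :
    x ∈ V n ↔ (∀ i, x i = 1 ∨ x i = -1 ∨ x i = 0) ∧ ∑ i, x i = 0 := by
  have e : eval x (psum (Fin n) ℝ 6 - 2 * psum (Fin n) ℝ 4 + psum (Fin n) ℝ 2)
      = ∑ i, (x i * (x i ^ 2 - 1)) ^ 2 := by
    simp only [psum, map_add, map_sub, map_mul, map_sum, map_pow, eval_X, map_ofNat, mul_sum,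
      ← sum_sub_distrib, ← sum_add_distrib]
    exact sum_congr rfl fun i _ => by ring
  have e1 : eval x (psum (Fin n) ℝ 1) = ∑ i, x i := by simp [psum]
  rw [V, Set.mem_ofPred_eq, e, e1, sum_eq_zero_iff_of_nonneg fun i _ => sq_nonneg _]
  refine and_congr_left fun _ => forall_congr' fun i => ?_
  simp only [mem_univ, true_imp_iff, ne_eq, OfNat.ofNat_ne_zero, not_false_eq_true,
    pow_eq_zero_iff, mul_eq_zero, sub_eq_zero]
  rw [sq, mul_self_eq_one_iff]
  tauto

noncomputable def cnt {n : ℕ} (x : Fin n → ℝ) (c : ℝ) : ℕ := (univ.filter fun i => x i = c).card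

lemma cnt_facts {n : ℕ} {x : Fin n → ℝ} (hx : x ∈ V n) :
    cnt x (-1) = cnt x 1 ∧ cnt x 0 + 2 * cnt x 1 = n := by
  obtain ⟨h1, h2⟩ := mem_V.1 hx
  have a : ∑ i, x i = (cnt x 1 : ℝ) - cnt x (-1) := by
    simp only [cnt, card_filter, Nat.cast_sum, ← sum_sub_distrib]
    refine sum_congr rfl fun i _ => ?_
    rcases h1 i with h | h | h <;> rw [h] <;> norm_num
  have b : cnt x 0 + cnt x 1 + cnt x (-1) = ∑ _i : Fin n, 1 := by
    simp only [cnt, card_filter, ← sum_add_distrib]
    refine sum_congr rfl fun i _ => ?_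
    rcases h1 i with h | h | h <;> rw [h] <;> norm_num
  have c : cnt x (-1) = cnt x 1 := by
    have : (cnt x (-1) : ℝ) = cnt x 1 := by linarith
    exact_mod_cast this
  simp only [sum_const, card_univ, Fintype.card_fin, smul_eq_mul, mul_one] at b
  omega

lemma perm_of_cnt {n : ℕ} {x y : Fin n → ℝ} (hx : x ∈ V n) (hy : y ∈ V n)
    (h : cnt x 1 = cnt y 1) : ∃ σ : Equiv.Perm (Fin n), y = x ∘ σ := by
  have k : ∀ c, Fintype.card {i // y i = c} = Fintype.card {i // x i = c} := by
    intro c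
    rw [Fintype.card_subtype, Fintype.card_subtype]
    change cnt y c = cnt x c
    have := cnt_facts hx
    have := cnt_facts hy
    by_cases h1 : c = 1
    · rw [h1, h]
    by_cases h2 : c = -1
    · subst h2; omega
    by_cases h3 : c = 0
    · subst h3; omega
    have z : ∀ w ∈ V n, cnt w c = 0 := fun w hw => by
      rw [cnt, card_eq_zero, filter_eq_empty_iff]
      intro i _ e
      rcases (mem_V.1 hw).1 i with h | h | h <;> simp_all
    rw [z x hx, z y hy]
  exact ⟨Equiv.ofFiberEquiv fun c => Fintype.equivOfCardEq (k c),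
    funext fun i => (Equiv.ofFiberEquiv_map _ i).symm⟩

lemma ex_cnt (n k : ℕ) (h : 2 * k ≤ n) : ∃ x ∈ V n, cnt x 1 = k := by
  induction n generalizing k with
  | zero => exact ⟨0, mem_V.2 ⟨fun i => i.elim0, by simp⟩, by simp [cnt]; omega⟩
  | succ n ih =>
    rcases Nat.lt_or_ge (2 * k) (n + 1) with h' | h'
    · obtain ⟨x, hx, e⟩ := ih k (by omega)
      refine ⟨Fin.cons 0 x, mem_V.2 ⟨fun i => ?_, ?_⟩, ?_⟩
      · refine Fin.cases (by simp) (fun j => by simpa using (mem_V.1 hx).1 j) i
      · simpa [Fin.sum_univ_succ] using (mem_V.1 hx).2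
      · rw [← e, cnt, cnt, card_filter, card_filter, Fin.sum_univ_succ]
        simp only [Fin.cons_zero, Fin.cons_succ, zero_ne_one, if_false, zero_add]
    · have hk : n + 1 = k + k := by omega
      rw [hk]
      refine ⟨Fin.append (fun _ => 1) (fun _ => -1), mem_V.2 ⟨fun i => ?_, ?_⟩, ?_⟩
      · refine Fin.addCases (fun j => by simp) (fun j => by rw [Fin.append_right]; simp) i
      · simp only [Fin.sum_univ_add, Fin.append_left, Fin.append_right]; simp
      · rw [cnt, card_filter, Fin.sum_univ_add]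
        simp only [Fin.append_left, Fin.append_right]; norm_num

lemma joined_eq {n : ℕ} (x y : V n) (h : Joined x y) : x = y := by
  have : (V n).Finite := (Set.Finite.pi' (t := fun _ : Fin n => ({1, -1, 0} : Set ℝ))
    fun _ => Set.toFinite _).subset fun x hx i => by simpa using (mem_V.1 hx).1 i
  have := this.to_subtype
  obtain ⟨γ⟩ := h
  exact γ.source.symm.trans
    ((PreconnectedSpace.constant inferInstance γ.continuous).trans γ.target)

lemma mult_eq (n : ℕ) : mult n = n / 2 + 1 := by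
  let k : V n → Fin (n / 2 + 1) := fun x => ⟨cnt x.1 1, by have := cnt_facts x.2; omega⟩
  have ks : Function.Surjective k := fun j => by
    obtain ⟨x, hx, e⟩ := ex_cnt n j (by have := j.2; omega)
    exact ⟨⟨x, hx⟩, Fin.ext e⟩
  have hr : LinearMap.range (LinearMap.funLeft ℚ ℚ k) = H0 (V n) ⊓ Fixed n := by
    ext f
    constructor
    · rintro ⟨g, rfl⟩
      refine ⟨fun x y h => by rw [joined_eq x y h], fun x y σ h => congrArg g (Fin.ext ?_)⟩
      simp only [k, cnt, h]
      exact (card_bij (fun i _ => σ i) (by simp) (by simp)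
        (fun b hb => ⟨σ.symm b, by simpa using hb, by simp⟩)).symm
    · rintro ⟨-, hf⟩
      refine ⟨fun j => f (Function.surjInv ks j), funext fun x => ?_⟩
      obtain ⟨σ, h⟩ := perm_of_cnt (Function.surjInv ks (k x)).2 x.2
        (congrArg Fin.val (Function.surjInv_eq ks (k x)))
      exact hf _ _ σ h
  rw [mult, ← hr, LinearMap.finrank_range_of_inj (LinearMap.funLeft_injective_of_surjective _ _ _ ks)]
  simp

theorem result : (∀ n, mult n = n / 2 + 1) ∧
    ¬ ∃ (P : Polynomial ℚ) (N : ℕ), ∀ n ≥ N, (mult n : ℚ) = P.eval (n : ℚ) := by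
  refine ⟨mult_eq, ?_⟩
  rintro ⟨P, N, h⟩
  have e : P = Polynomial.C (1 / 2) * Polynomial.X + 1 := by
    apply Polynomial.eq_of_infinite_eval_eq
    refine Set.infinite_of_injective_forall_mem (f := fun m : ℕ => ((2 * (m + N) : ℕ) : ℚ))
      (fun a b hab => by simpa using hab) fun m => ?_
    rw [Set.mem_ofPred_eq, ← h _ (by omega), mult_eq, Nat.mul_div_cancel_left _ (by norm_num)]
    simp
  have := h (2 * N + 1) (by omega)
  rw [mult_eq, e, show (2 * N + 1) / 2 = N by omega] at this
  simp at this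
  linarith

end Pool.Agent.Results.MP_356e41_ag.QuasiPoly
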